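import Pool.Agent.H95.CM.Targets

/-!
# Row C_LSU: the lattices on which the form is divisible are ideals
-/

set_option autoImplicit false
set_option linter.unusedSectionVars false

open MeasureTheory Set Filter NumberField
open scoped Real nonZeroDivisors

namespace Pool.Agent.H95.CM4

open Pool.Agent.H65.CM4
open Pool.Agent.H95.CM

/-- a number prime to the ideal can be cancelled -/
theorem cancel_b {R : Type*} [CommRing R] {n : Ideal R} {b x : R}
    (h : n ⊔ Ideal.span {b} = ⊤) (hx : b * x ∈ n) : x ∈ n := by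
  have h1 : (1 : R) ∈ n ⊔ Ideal.span {b} := by rw [h]; trivial
  obtain ⟨y, hy, z, hz, e⟩ := Submodule.mem_sup.mp h1
  obtain ⟨c, rfl⟩ := Ideal.mem_span_singleton'.mp hz
  have : x = y * x + c * (b * x) := by
    calc x = 1 * x := (one_mul x).symm
      _ = (y + c * b) * x := by rw [e]
      _ = _ := by ring
  rw [this]
  exact n.add_mem (n.mul_mem_right _ hy) (n.mul_mem_left _ hx)

section

variable {k K : Type} [Field k] [NumberField k] [IsTotallyReal k] [Field K] [NumberField K]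
  [IsTotallyComplex K] [Algebra k K] [Algebra.IsQuadraticExtension k K]

theorem lin_zero (α β : K) : lin (k := k) α β 0 = 0 := by simp [lin]

theorem lin_neg (α β : K) (u : V2 k) : lin α β (-u) = - lin α β u := by
  simp only [lin, Prod.fst_neg, Prod.snd_neg]
  push_cast
  ring

theorem lin_sub (α β : K) (u v : V2 k) : lin α β (u - v) = lin α β u - lin α β v := by
  rw [sub_eq_add_neg, lin_add, lin_neg, sub_eq_add_neg]

theorem lin_inj {α β : K} (h : ∀ u : V2 k, lin α β u = 0 → u = 0) {u v : V2 k}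
    (e : lin α β u = lin α β v) : u = v := by
  have := h (u - v) (by rw [lin_sub, e, sub_self])
  exact sub_eq_zero.mp this

/-- independence over the field -/
theorem indep {α β : K} (h : ∀ u : V2 k, lin α β u = 0 → u = 0) :
    LinearIndependent k ![α, β] := by
  rw [LinearIndependent.pair_iff]
  intro s t hst
  obtain ⟨a, d, hd, hs⟩ := IsFractionRing.div_surjective (A := 𝓞 k) s
  obtain ⟨c, d', hd', ht⟩ := IsFractionRing.div_surjective (A := 𝓞 k) t
  have hd0 : algebraMap (𝓞 k) k d ≠ 0 := by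
    have := nonZeroDivisors.ne_zero hd
    exact fun h => this (RingOfIntegers.ext (by simpa using h))
  have hd0' : algebraMap (𝓞 k) k d' ≠ 0 := by
    have := nonZeroDivisors.ne_zero hd'
    exact fun h => this (RingOfIntegers.ext (by simpa using h))
  have e1 : algebraMap (𝓞 k) k (a * d') = algebraMap (𝓞 k) k (d * d') * s := by
    rw [← hs, map_mul, map_mul]; field_simp
  have e2 : algebraMap (𝓞 k) k (c * d) = algebraMap (𝓞 k) k (d * d') * t := by
    rw [← ht, map_mul, map_mul]; field_simp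
  have h0 : lin α β ((a * d', c * d) : V2 k) = 0 := by
    have h3 : lin α β ((a * d', c * d) : V2 k) =
        algebraMap k K (algebraMap (𝓞 k) k (a * d')) * α +
          algebraMap k K (algebraMap (𝓞 k) k (c * d)) * β := rfl
    have h4 : algebraMap k K s * α + algebraMap k K t * β = 0 := by
      rw [← Algebra.smul_def, ← Algebra.smul_def, hst]
    rw [h3, e1, e2, map_mul (algebraMap k K), map_mul (algebraMap k K), mul_assoc, mul_assoc,
      ← mul_add, h4, mul_zero]
  have h1 := h _ h0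
  have ha0 : a * d' = 0 := congrArg Prod.fst h1
  have hc0 : c * d = 0 := congrArg Prod.snd h1
  have z1 : a = 0 := (mul_eq_zero.mp ha0).resolve_right (nonZeroDivisors.ne_zero hd')
  have z2 : c = 0 := (mul_eq_zero.mp hc0).resolve_right (nonZeroDivisors.ne_zero hd)
  rw [← hs, ← ht, z1, z2]
  simp

/-- the determinant identity -/
theorem det_mul {α β : K} (h : ∀ u : V2 k, lin α β u = 0 → u = 0) (ω : K) :
    ∃ l : k, ∀ u u' : V2 k, lin α β u' = ω * lin α β u →
      ((det u u' : 𝓞 k) : k) = Algebra.norm k (lin α β u) * l := by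
  classical
  have hli := indep h
  have hcard : Fintype.card (Fin 2) = Module.finrank k K := by
    rw [Algebra.IsQuadraticExtension.finrank_eq_two k K]; rfl
  let e : Module.Basis (Fin 2) k K := basisOfLinearIndependentOfCardEqFinrank hli hcard
  have he : ⇑e = ![α, β] := coe_basisOfLinearIndependentOfCardEqFinrank hli hcard
  refine ⟨e.det ![1, ω], ?_⟩
  intro u u' hu
  have hlin : ∀ w : V2 k, lin α β w = (w.1 : k) • e 0 + (w.2 : k) • e 1 := by
    intro w
    rw [he]
    simp [lin, Algebra.smul_def]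
  have h1 : e.det ![lin α β u, lin α β u'] = ((det u u' : 𝓞 k) : k) := by
    rw [Module.Basis.det_apply, Matrix.det_fin_two]
    simp only [Module.Basis.toMatrix_apply, Matrix.cons_val_zero, Matrix.cons_val_one, hlin]
    simp only [map_add, map_smul, Finsupp.add_apply, Finsupp.smul_apply, smul_eq_mul,
      Module.Basis.repr_self]
    simp [det]
    ring
  have h2 : (![lin α β u, lin α β u'] : Fin 2 → K) =
      (LinearMap.mulLeft k (lin α β u)) ∘ ![1, ω] := by
    funext i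
    fin_cases i
    · simp
    · simp [hu, mul_comm]
  rw [← h1, h2, Module.Basis.det_comp, Algebra.norm_apply]
  rfl

/-- membership in the lattice -/
theorem mem_lt {α β : K} {J : Ideal (𝓞 K)} {u : V2 k} :
    u ∈ lt α β J ↔ ∃ x ∈ J, (x : K) = lin α β u := Iff.rfl

/-- the norm of an integer as an integer of `k` -/
theorem intNorm_coe (x : 𝓞 K) :
    ((Algebra.intNorm (𝓞 k) (𝓞 K) x : 𝓞 k) : k) = Algebra.norm k (x : K) :=
  Algebra.algebraMap_intNorm (A := 𝓞 k) (K := k) (L := K) (B := 𝓞 K) x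

end

theorem pf_LSU (hMEM : T_MEM) (hIXL : T_IXL) : T_LSU := by
  intro k K _ _ _ _ _ _ _ _ b I α β μ M Q hb hI hO n hn hnb L hL hDv
  have hinj := hO.inj
  obtain ⟨u₀, hu₀, hLw⟩ := ((hMEM k).1 n L hn).mp hL
  have hbM := hO.bM
  -- membership in M
  have hMI : ∀ u : V2 k, u ∈ M ↔ ∃ x ∈ I, (x : K) = lin α β u := by
    intro u; rw [hO.lat]; exact Iff.rfl
  have hLm : ∀ u : V2 k, u ∈ L ↔ det u₀ u ∈ n := by
    intro u; rw [hLw]; exact Iff.rfl
  -- the action
  have hact : ∀ (ω : 𝓞 K) (u : V2 k), u ∈ M → ∃ u' ∈ M, lin α β u' = (ω : K) * lin α β u := by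
    intro ω u hu
    obtain ⟨x, hx, ex⟩ := (hMI u).mp hu
    have hx' : ω * x ∈ I := I.mul_mem_left ω hx
    obtain ⟨u', hu'⟩ := hO.mem _ hx'
    refine ⟨u', (hMI u').mpr ⟨ω * x, hx', hu'.symm⟩, ?_⟩
    rw [hu', ← ex]
    push_cast
    rfl
  -- the multiplier
  have hmul : ∀ ω : 𝓞 K, ∃ l : 𝓞 k, ∀ u ∈ M, ∀ u', lin α β u' = (ω : K) * lin α β u →
      (b : 𝓞 k) * det u u' = val Q u * l := by
    intro ω
    obtain ⟨l, hl⟩ := det_mul hinj (ω : K)
    have key : ∀ u u' : V2 k, lin α β u' = (ω : K) * lin α β u →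
        ((det u u' : 𝓞 k) : k) = ((val Q u : 𝓞 k) : k) * (μ * l) := by
      intro u u' h
      rw [hl u u' h, hO.nrm]; ring
    have hspan : ∀ a ∈ Ideal.span {a : 𝓞 k | ∃ u ∈ M, val Q u = a},
        ∃ m : 𝓞 k, algebraMap (𝓞 k) k m = algebraMap (𝓞 k) k a * (μ * l) := by
      intro a ha
      refine Submodule.span_induction ?_ ?_ ?_ ?_ ha
      · rintro x ⟨u, hu, rfl⟩
        obtain ⟨u', _, h'⟩ := hact ω u hu
        exact ⟨det u u', key u u' h'⟩
      · exact ⟨0, by simp⟩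
      · rintro x y _ _ ⟨m, hm⟩ ⟨m', hm'⟩
        exact ⟨m + m', by rw [map_add, map_add, hm, hm']; ring⟩
      · rintro c x _ ⟨m, hm⟩
        exact ⟨c * m, by rw [map_mul, hm, smul_eq_mul, map_mul]; ring⟩
    obtain ⟨m, hm⟩ := hspan _ hO.cop
    refine ⟨m, ?_⟩
    intro u _ u' h
    apply RingOfIntegers.ext
    have h1 : algebraMap (𝓞 k) k (det u u') = algebraMap (𝓞 k) k (val Q u) * (μ * l) := key u u' h
    change algebraMap (𝓞 k) k ((b : 𝓞 k) * det u u') = algebraMap (𝓞 k) k (val Q u * m)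
    rw [map_mul, map_mul, hm, h1]
    ring
  have hdet : ∀ (ω : 𝓞 K), ∀ u ∈ M, u ∈ L → ∀ u', lin α β u' = (ω : K) * lin α β u →
      det u u' ∈ n := by
    intro ω u hu huL u' h
    obtain ⟨l, hl⟩ := hmul ω
    refine cancel_b hnb ?_
    rw [hl u hu u' h]
    exact n.mul_mem_right _ (hDv u huL)
  -- the lattice is stable
  have hstab : ∀ (ω : 𝓞 K), ∀ u ∈ M, u ∈ L → ∀ u' ∈ M, lin α β u' = (ω : K) * lin α β u →
      u' ∈ L := by
    intro ω u hu huL u' hu' h
    -- the vector u₁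
    have h1M : (b : 𝓞 k) • u₀ ∈ M := hbM u₀
    have h1L : (b : 𝓞 k) • u₀ ∈ L := by
      rw [hLm]
      have : det u₀ ((b : 𝓞 k) • u₀) = 0 := by simp [det]; ring
      rw [this]; exact n.zero_mem
    obtain ⟨w₁, hw₁M, hw₁⟩ := hact ω _ h1M
    have hw₁L : det u₀ w₁ ∈ n := by
      have h2 := hdet ω _ h1M h1L w₁ hw₁
      have : det ((b : 𝓞 k) • u₀) w₁ = (b : 𝓞 k) * det u₀ w₁ := by simp [det]; ring
      rw [this] at h2
      exact cancel_b hnb h2
    obtain ⟨f₁, _, hf₁⟩ := hact ω _ (hbM (1, 0))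
    obtain ⟨f₂, _, hf₂⟩ := hact ω _ (hbM (0, 1))
    -- the multiple of u₀ near u
    obtain ⟨c, hc1, hc2⟩ : ∃ c : 𝓞 k, u.1 - c * u₀.1 ∈ n ∧ u.2 - c * u₀.2 ∈ n := by
      have h1 : (1 : 𝓞 k) ∈ Ideal.span {u₀.1, u₀.2} ⊔ n := by
        have : Ideal.span {u₀.1, u₀.2} ⊔ n = ⊤ := hu₀
        rw [this]; trivial
      obtain ⟨y, hy, z, hz, e⟩ := Submodule.mem_sup.mp h1
      obtain ⟨p, q, hpq⟩ := Ideal.mem_span_pair.mp hy
      have hd : u₀.1 * u.2 - u₀.2 * u.1 ∈ n := (hLm u).mp huL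
      refine ⟨p * u.1 + q * u.2, ?_, ?_⟩
      · have : u.1 - (p * u.1 + q * u.2) * u₀.1 = z * u.1 + (-q) * (u₀.1 * u.2 - u₀.2 * u.1) := by
          linear_combination (-u.1) * e + (-u.1) * hpq
        rw [this]
        exact n.add_mem (n.mul_mem_right _ hz) (n.mul_mem_left _ hd)
      · have : u.2 - (p * u.1 + q * u.2) * u₀.2 = z * u.2 + p * (u₀.1 * u.2 - u₀.2 * u.1) := by
          linear_combination (-u.2) * e + (-u.2) * hpq
        rw [this]
        exact n.add_mem (n.mul_mem_right _ hz) (n.mul_mem_left _ hd)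
    have hu : u = c • u₀ + ((u.1 - c * u₀.1) • (1, 0) + (u.2 - c * u₀.2) • (0, 1)) := by
      ext <;> simp
    have hbu : (b : 𝓞 k) • u = c • ((b : 𝓞 k) • u₀) + ((u.1 - c * u₀.1) • ((b : 𝓞 k) • (1, 0)) +
        (u.2 - c * u₀.2) • ((b : 𝓞 k) • (0, 1))) := by
      conv_lhs => rw [hu]
      simp only [smul_add, smul_comm (b : 𝓞 k)]
    have heq : (b : 𝓞 k) • u' = c • w₁ + ((u.1 - c * u₀.1) • f₁ + (u.2 - c * u₀.2) • f₂) := by
      apply lin_inj hinj
      have e1 : lin α β ((b : 𝓞 k) • u') = (ω : K) * lin α β ((b : 𝓞 k) • u) := by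
        rw [lin_smul, lin_smul, h]; ring
      rw [e1, hbu]
      simp only [lin_add, lin_smul, hw₁, hf₁, hf₂]
      ring
    rw [hLm]
    refine cancel_b hnb ?_
    have e2 : (b : 𝓞 k) * det u₀ u' = det u₀ ((b : 𝓞 k) • u') := by simp [det]; ring
    have e3 : det u₀ (c • w₁ + ((u.1 - c * u₀.1) • f₁ + (u.2 - c * u₀.2) • f₂)) =
        c * det u₀ w₁ + ((u.1 - c * u₀.1) * det u₀ f₁ + (u.2 - c * u₀.2) * det u₀ f₂) := by
      simp [det]; ring
    rw [e2, heq, e3]
    exact n.add_mem (n.mul_mem_left _ hw₁L) (n.add_mem (n.mul_mem_right _ hc1)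
      (n.mul_mem_right _ hc2))
  -- the ideal
  let I' : Ideal (𝓞 K) :=
    { carrier := {x | ∃ u ∈ M ⊓ L, (x : K) = lin α β u}
      zero_mem' := ⟨0, (M ⊓ L).zero_mem, by simp [lin_zero]⟩
      add_mem' := by
        rintro x y ⟨u, hu, ex⟩ ⟨v, hv, ey⟩
        exact ⟨u + v, (M ⊓ L).add_mem hu hv, by rw [lin_add, ← ex, ← ey]; push_cast; rfl⟩
      smul_mem' := by
        rintro ω x ⟨u, hu, ex⟩
        obtain ⟨u', hu', h'⟩ := hact ω u hu.1
        refine ⟨u', ⟨hu', hstab ω u hu.1 hu.2 u' hu' h'⟩, ?_⟩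
        rw [h', ← ex]
        push_cast
        rfl }
  have hI'm : ∀ x : 𝓞 K, x ∈ I' ↔ ∃ u ∈ M ⊓ L, (x : K) = lin α β u := fun x => Iff.rfl
  have hI'I : I' ≤ I := by
    rintro x ⟨u, hu, ex⟩
    obtain ⟨y, hy, ey⟩ := (hMI u).mp hu.1
    have : x = y := RingOfIntegers.ext (by rw [ex, ey])
    rw [this]; exact hy
  obtain ⟨P, hP⟩ := Ideal.dvd_iff_le.mpr hI'I
  have hPI : P * I = I' := by rw [hP, mul_comm]
  have hlt : lt α β (P * I) = M ⊓ L := by
    rw [hPI]
    ext u
    constructor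
    · rintro ⟨x, hx, ex⟩
      obtain ⟨v, hv, ev⟩ := hx
      have : u = v := lin_inj hinj (by rw [← ex, ← ev])
      rw [this]; exact hv
    · intro hu
      obtain ⟨x, hx, ex⟩ := (hMI u).mp hu.1
      exact ⟨x, ⟨u, hu, ex⟩, ex⟩
  have hP0 : P ≠ ⊥ := by
    rintro rfl
    obtain ⟨a, ha, ha0⟩ := Submodule.exists_mem_ne_zero_of_ne_bot hn
    have hu : (b : 𝓞 k) • ((a, 0) : V2 k) ∈ M ⊓ L := by
      refine ⟨hbM _, ?_⟩
      have h2 : det u₀ ((b : 𝓞 k) • ((a, 0) : V2 k)) = -(u₀.2 * b) * a := by simp [det]; ring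
      change (b : 𝓞 k) • ((a, 0) : V2 k) ∈ L
      rw [hLm, h2]
      exact n.mul_mem_left _ ha
    have h3 : (b : 𝓞 k) • ((a, 0) : V2 k) ∈ lt α β ((⊥ : Ideal (𝓞 K)) * I) := by
      rw [hlt]; exact hu
    obtain ⟨x, hx, ex⟩ := h3
    have hx0 : x = 0 := by simpa using hx
    rw [hx0] at ex
    have h4 := hinj _ (by rw [← ex]; simp)
    have h5 : (b : 𝓞 k) * a = 0 := congrArg Prod.fst h4
    rcases mul_eq_zero.mp h5 with h6 | h6
    · have : (b : 𝓞 k) ≠ 0 := by exact_mod_cast hb.ne'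
      exact this h6
    · exact ha0 h6
  -- the norm of P
  let φ : V2 k →+ K :=
    { toFun := fun u => lin α β u
      map_zero' := lin_zero α β
      map_add' := fun u v => lin_add α β u v }
  let j : 𝓞 K →+ K := (algebraMap (𝓞 K) K).toAddMonoidHom
  have hφ : Function.Injective φ := fun u v e => lin_inj hinj e
  have hj : Function.Injective j := RingOfIntegers.coe_injective
  have m1 : M.toAddSubgroup.map φ = (Submodule.toAddSubgroup I).map j := by
    ext y
    constructor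
    · rintro ⟨u, hu, rfl⟩
      obtain ⟨x, hx, ex⟩ := (hMI u).mp hu
      exact ⟨x, hx, ex⟩
    · rintro ⟨x, hx, rfl⟩
      obtain ⟨u, hu⟩ := hO.mem x hx
      exact ⟨u, (hMI u).mpr ⟨x, hx, hu.symm⟩, hu⟩
  have m2 : (M ⊓ L).toAddSubgroup.map φ = (Submodule.toAddSubgroup I').map j := by
    ext y
    constructor
    · rintro ⟨u, hu, rfl⟩
      obtain ⟨x, hx, ex⟩ := (hMI u).mp hu.1
      exact ⟨x, ⟨u, hu, ex⟩, ex⟩
    · rintro ⟨x, ⟨u, hu, ex⟩, rfl⟩
      exact ⟨u, hu, ex.symm⟩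
  have r : (M ⊓ L).toAddSubgroup.relIndex M.toAddSubgroup =
      (Submodule.toAddSubgroup I').relIndex (Submodule.toAddSubgroup I) := by
    rw [← AddSubgroup.relIndex_map_map_of_injective _ _ hφ, m1, m2,
      AddSubgroup.relIndex_map_map_of_injective _ _ hj]
  have r1 := AddSubgroup.relIndex_mul_index
    (show (M ⊓ L).toAddSubgroup ≤ M.toAddSubgroup from fun u hu => hu.1)
  have r2 := AddSubgroup.relIndex_mul_index
    (show Submodule.toAddSubgroup I' ≤ Submodule.toAddSubgroup I from fun u hu => hI'I hu)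
  obtain ⟨i1, _, i2, _⟩ := hIXL k b M n hb hbM hn hnb
  have i3 : ix (M ⊓ L) = ix M * Ideal.absNorm n := i2 L hL
  have hI0 : Ideal.absNorm I ≠ 0 := by rwa [Ne, Ideal.absNorm_eq_zero_iff]
  have r3 : (M ⊓ L).toAddSubgroup.relIndex M.toAddSubgroup = Ideal.absNorm n := by
    have : (M ⊓ L).toAddSubgroup.relIndex M.toAddSubgroup * ix M = Ideal.absNorm n * ix M := by
      rw [mul_comm (Ideal.absNorm n), ← i3]; exact r1
    exact Nat.eq_of_mul_eq_mul_right (Nat.pos_of_ne_zero i1) this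
  have hPn : Ideal.absNorm P = Ideal.absNorm n := by
    have h1 : Ideal.absNorm I' = Ideal.absNorm P * Ideal.absNorm I := by rw [← hPI, map_mul]
    have h2 : (Submodule.toAddSubgroup I').relIndex (Submodule.toAddSubgroup I) *
        Ideal.absNorm I = Ideal.absNorm I' := r2
    rw [← r, r3, h1] at h2
    exact (Nat.eq_of_mul_eq_mul_right (Nat.pos_of_ne_zero hI0) h2).symm
  -- the relative norm of P
  have hle : Ideal.relNorm (𝓞 k) P ≤ n := by
    intro y hy
    have hμ : μ ≠ 0 := by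
      obtain ⟨v⟩ : Nonempty (Pl k) := inferInstance
      intro h
      have := hO.pos v
      rw [h, map_zero] at this
      exact lt_irrefl _ this
    have hI'span : ∀ z ∈ Ideal.relNorm (𝓞 k) I', ∃ t ∈ n,
        algebraMap (𝓞 k) k z = μ * algebraMap (𝓞 k) k t := by
      intro z hz
      have hz' : z ∈ Ideal.map (Algebra.intNorm (𝓞 k) (𝓞 K)) I' := hz
      refine Submodule.span_induction ?_ ?_ ?_ ?_ hz'
      · rintro _ ⟨x, ⟨u, hu, ex⟩, rfl⟩
        refine ⟨val Q u, hDv u hu.2, ?_⟩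
        have h1 := intNorm_coe (k := k) x
        rw [ex, hO.nrm] at h1
        exact h1
      · exact ⟨0, n.zero_mem, by simp⟩
      · rintro x z _ _ ⟨t, ht, et⟩ ⟨t', ht', et'⟩
        exact ⟨t + t', n.add_mem ht ht', by rw [map_add, map_add, et, et']; ring⟩
      · rintro c x _ ⟨t, ht, et⟩
        exact ⟨c * t, n.mul_mem_left _ ht, by rw [smul_eq_mul, map_mul, map_mul, et]; ring⟩
    have h1 : ∀ u ∈ M, y * val Q u ∈ n := by
      intro u hu
      obtain ⟨x, hx, ex⟩ := (hMI u).mp hu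
      have h2 : Algebra.intNorm (𝓞 k) (𝓞 K) x ∈ Ideal.relNorm (𝓞 k) I :=
        Ideal.intNorm_mem_spanNorm (R := 𝓞 k) hx
      have h3 : y * Algebra.intNorm (𝓞 k) (𝓞 K) x ∈ Ideal.relNorm (𝓞 k) I' := by
        rw [← hPI, map_mul]
        exact Ideal.mul_mem_mul hy h2
      obtain ⟨t, ht, et⟩ := hI'span _ h3
      have h4 := intNorm_coe (k := k) x
      rw [ex, hO.nrm] at h4
      have h5 : algebraMap (𝓞 k) k (y * val Q u) = algebraMap (𝓞 k) k t := by
        rw [map_mul] at et ⊢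
        have h6 : algebraMap (𝓞 k) k (Algebra.intNorm (𝓞 k) (𝓞 K) x) =
            μ * algebraMap (𝓞 k) k (val Q u) := h4
        rw [h6] at et
        exact mul_left_cancel₀ hμ (by rw [← et]; ring)
      have h7 : y * val Q u = t := RingOfIntegers.ext h5
      rw [h7]; exact ht
    have h2 : ∀ a ∈ Ideal.span {a : 𝓞 k | ∃ u ∈ M, val Q u = a}, y * a ∈ n := by
      intro a ha
      refine Submodule.span_induction ?_ ?_ ?_ ?_ ha
      · rintro x ⟨u, hu, rfl⟩
        exact h1 u hu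
      · simp
      · intro x z _ _ hx hz
        rw [mul_add]; exact n.add_mem hx hz
      · intro c x _ hx
        have : y * (c • x) = c * (y * x) := by rw [smul_eq_mul]; ring
        rw [this]; exact n.mul_mem_left _ hx
    have h3 := h2 _ hO.cop
    rw [mul_comm] at h3
    exact cancel_b hnb h3
  refine ⟨P, hP0, ?_, hlt⟩
  obtain ⟨J, hJ⟩ := Ideal.dvd_iff_le.mpr hle
  have hn0 : Ideal.absNorm n ≠ 0 := by rwa [Ne, Ideal.absNorm_eq_zero_iff]
  have h1 : Ideal.absNorm (Ideal.relNorm (𝓞 k) P) = Ideal.absNorm n := by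
    rw [Ideal.absNorm_relNorm, hPn]
  rw [hJ, map_mul] at h1
  have h2 : Ideal.absNorm J = 1 := by
    have : Ideal.absNorm n * Ideal.absNorm J = Ideal.absNorm n * 1 := by rw [h1, mul_one]
    exact Nat.eq_of_mul_eq_mul_left (Nat.pos_of_ne_zero hn0) this
  rw [Ideal.absNorm_eq_one_iff] at h2
  rw [hJ, h2, Ideal.mul_top]

end Pool.Agent.H95.CM4
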