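import Pool.Agent.H95.CM.Targets

/-!
# Row C_TMF: the twisted second moment of the `L`-functions
-/

set_option autoImplicit false
set_option linter.unusedSectionVars false

open MeasureTheory Set Filter NumberField
open scoped Real nonZeroDivisors

namespace Pool.Agent.H95.CM4

open Pool.Agent.H65.CM4
open Pool.Agent.H95.CM
open Pool.Agent.H31.CN (IsLf)
open Pool.Agent.H61.FM (CC pv)

/-- one field -/
theorem one_field (hPVF : T_PVF) {ε κ C1 C2 : ℝ} {k2 : ℕ} (hε : 0 < ε) (hκ0 : 0 < κ)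
    (hκ : κ ≤ 1 / 8) (hC1 : 0 < C1) (hC2 : 0 < C2)
    (k : Type) [Field k] [NumberField k] [IsTotallyReal k]
    (h2 : ∀ s : ℂ, |s.re - 1 / 2| ≤ 1 / 8 →
      Real.exp (-(π * |s.im| / 2)) ≤ C2 * (1 + |s.im|) ^ k2 * ‖gG s‖)
    (K : Type) [Field K] [NumberField K] [IsTotallyComplex K] [Algebra k K]
    [Algebra.IsQuadraticExtension k K]
    (h1 : (Fintype.card (ClassGroup (𝓞 K)) : ℝ) ≤ C1 * |(discr K : ℝ)| ^ (1 / 2 + ε))
    (b : ℕ) (B y : ℝ) (hb : 0 < b) (R : RS k K b B y)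
    (F : CC K → ℂ → ℂ) (hF : ∀ ψ, IsLf K ψ (F ψ)) (s : ℂ) (A : ℝ) (α : Ideal (𝓞 k) → ℂ) (X : ℝ)
    (hX : 1 ≤ X) (hs : |s.re - 1 / 2| ≤ κ) (hD1 : X / 4 ≤ |(discr K : ℝ)|)
    (hD2 : |(discr K : ℝ)| ≤ X) :
    ∑ ψ : CC K, ‖∑ I ∈ Sq b A, α I * lm k ψ I‖ ^ 2 * ‖F ψ s‖ ^ 2 ≤
      (2 * C1 * (dk k : ℝ) ^ 2 * (C2 ^ 2) ^ dg k) * ((1 + |s.im|) ^ (2 * k2 * dg k) *
        Real.exp (π * dg k * |s.im|) * X ^ (κ + ε)) *
        ∑ c, ‖Bf s α b A (R.M c) (R.Q c)‖ ^ 2 := by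
  have hs8 : |s.re - 1 / 2| ≤ 1 / 8 := hs.trans hκ
  have hP := hPVF k K b B y R F hb hF s A α hs8
  rw [← Finset.sum_mul] at hP
  set P : ℝ := ∑ ψ : CC K, ‖∑ I ∈ Sq b A, α I * lm k ψ I‖ ^ 2 * ‖F ψ s‖ ^ 2 with hPd
  set Z : ℝ := ∑ c, ‖Bf s α b A (R.M c) (R.Q c)‖ ^ 2 with hZ
  have hP0 : 0 ≤ P := Finset.sum_nonneg fun _ _ => by positivity
  have hZ0 : 0 ≤ Z := Finset.sum_nonneg fun _ _ => by positivity
  have hX0 : 0 < X := by linarith
  have hd0 : (1 : ℝ) ≤ |(discr K : ℝ)| := by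
    have : (1 : ℤ) ≤ |discr K| := Int.one_le_abs (discr_ne_zero K)
    exact_mod_cast this
  have hk0 : (1 : ℝ) ≤ (dk k : ℝ) := by
    have : 1 ≤ dk k := Nat.one_le_iff_ne_zero.mpr (Int.natAbs_ne_zero.mpr (discr_ne_zero k))
    exact_mod_cast this
  set n : ℕ := dg k with hn
  set q : ℝ := (dk k : ℝ) ^ 2 with hq
  have hq1 : 1 ≤ q := one_le_pow₀ hk0
  set T : ℝ := 1 + |s.im| with hT
  have hT1 : 1 ≤ T := by
    have := abs_nonneg s.im
    linarith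
  have hg := h2 s hs8
  have hg2 : Real.exp (-(π * n * |s.im|)) ≤ (C2 ^ 2) ^ n * T ^ (2 * k2 * n) * (‖gG s‖ ^ n) ^ 2 := by
    calc Real.exp (-(π * n * |s.im|)) = Real.exp (-(π * |s.im| / 2)) ^ (2 * n) := by
          rw [← Real.exp_nat_mul]
          congr 1
          push_cast
          ring
      _ ≤ (C2 * T ^ k2 * ‖gG s‖) ^ (2 * n) := pow_le_pow_left₀ (Real.exp_pos _).le hg _
      _ = _ := by
          rw [mul_pow, mul_pow, ← pow_mul, ← pow_mul, ← pow_mul]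
          ring_nf
  have hs' := abs_le.mp hs
  have hDs : X ^ (1 / 2 - κ) / 2 / q ≤ Dr k K ^ s.re := by
    have e1 : Dr k K ^ s.re = |(discr K : ℝ)| ^ s.re / q ^ s.re := by
      unfold Dr
      rw [Real.div_rpow (abs_nonneg _) (by positivity)]
    have e2 : q ^ s.re ≤ q := by
      calc q ^ s.re ≤ q ^ (1 : ℝ) := Real.rpow_le_rpow_of_exponent_le hq1 (by linarith [hs'.2])
        _ = q := Real.rpow_one q
    have e3 : X ^ (1 / 2 - κ) / 2 ≤ |(discr K : ℝ)| ^ s.re := by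
      calc X ^ (1 / 2 - κ) / 2 ≤ (X / 4) ^ (1 / 2 - κ) := by
            rw [Real.div_rpow hX0.le (by norm_num)]
            apply div_le_div_of_nonneg_left (Real.rpow_nonneg hX0.le _)
              (Real.rpow_pos_of_pos (by norm_num) _)
            have e : (2 : ℝ) = 4 ^ (1 / 2 : ℝ) := by
              rw [show (4 : ℝ) = 2 ^ (2 : ℝ) by norm_num, ← Real.rpow_mul (by norm_num)]
              norm_num
            calc (4 : ℝ) ^ (1 / 2 - κ) ≤ 4 ^ (1 / 2 : ℝ) :=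
                  Real.rpow_le_rpow_of_exponent_le (by norm_num) (by linarith)
              _ = 2 := e.symm
        _ ≤ |(discr K : ℝ)| ^ (1 / 2 - κ) :=
            Real.rpow_le_rpow (by positivity) hD1 (by linarith)
        _ ≤ |(discr K : ℝ)| ^ s.re := Real.rpow_le_rpow_of_exponent_le hd0 (by linarith [hs'.1])
    rw [e1]
    have hqs : 0 < q ^ s.re := Real.rpow_pos_of_pos (by linarith) _
    calc X ^ (1 / 2 - κ) / 2 / q ≤ |(discr K : ℝ)| ^ s.re / q := by gcongr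
      _ ≤ |(discr K : ℝ)| ^ s.re / q ^ s.re := by
          apply div_le_div_of_nonneg_left _ hqs e2
          positivity
  have hh : (Fintype.card (ClassGroup (𝓞 K)) : ℝ) ≤ C1 * X ^ (1 / 2 + ε) :=
    h1.trans (mul_le_mul_of_nonneg_left
      (Real.rpow_le_rpow (by positivity) hD2 (by linarith)) hC1.le)
  have hXs : X ^ (1 / 2 + ε) = X ^ (κ + ε) * X ^ (1 / 2 - κ) := by
    rw [← Real.rpow_add hX0]
    congr 1
    ring
  have hXp : 0 < X ^ (1 / 2 - κ) := Real.rpow_pos_of_pos hX0 _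
  have hE : Real.exp (π * n * |s.im|) * Real.exp (-(π * n * |s.im|)) = 1 := by
    rw [← Real.exp_add, add_neg_cancel, Real.exp_zero]
  have hEp := Real.exp_pos (π * n * |s.im|)
  have hDr0 : 0 ≤ Dr k K ^ s.re := Real.rpow_nonneg (by unfold Dr; positivity) _
  have hq0 : 0 < q := by linarith
  have hmain : P * (Real.exp (-(π * n * |s.im|)) * (X ^ (1 / 2 - κ) / 2 / q)) ≤
      (C2 ^ 2) ^ n * T ^ (2 * k2 * n) * (C1 * (X ^ (κ + ε) * X ^ (1 / 2 - κ))) * Z := by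
    calc P * (Real.exp (-(π * n * |s.im|)) * (X ^ (1 / 2 - κ) / 2 / q))
        ≤ P * (((C2 ^ 2) ^ n * T ^ (2 * k2 * n) * (‖gG s‖ ^ n) ^ 2) * Dr k K ^ s.re) := by
          apply mul_le_mul_of_nonneg_left _ hP0
          exact mul_le_mul hg2 hDs (by positivity) (by positivity)
      _ = (C2 ^ 2) ^ n * T ^ (2 * k2 * n) * (P * ((‖gG s‖ ^ n) ^ 2 * Dr k K ^ s.re)) := by ring
      _ ≤ (C2 ^ 2) ^ n * T ^ (2 * k2 * n) * (Fintype.card (ClassGroup (𝓞 K)) * Z) :=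
          mul_le_mul_of_nonneg_left hP (by positivity)
      _ ≤ (C2 ^ 2) ^ n * T ^ (2 * k2 * n) * ((C1 * X ^ (1 / 2 + ε)) * Z) := by
          apply mul_le_mul_of_nonneg_left _ (by positivity)
          exact mul_le_mul_of_nonneg_right hh hZ0
      _ = _ := by rw [hXs]; ring
  have h3 : P * (Real.exp (-(π * n * |s.im|)) * (X ^ (1 / 2 - κ) / 2 / q)) *
      (2 * q * Real.exp (π * n * |s.im|)) ≤ ((C2 ^ 2) ^ n * T ^ (2 * k2 * n) * (C1 * (X ^ (κ + ε) *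
        X ^ (1 / 2 - κ))) * Z) * (2 * q * Real.exp (π * n * |s.im|)) :=
    mul_le_mul_of_nonneg_right hmain (by positivity)
  have h4 : P * X ^ (1 / 2 - κ) ≤ ((2 * C1 * q * (C2 ^ 2) ^ n) * (T ^ (2 * k2 * n) *
      Real.exp (π * n * |s.im|) * X ^ (κ + ε)) * Z) * X ^ (1 / 2 - κ) := by
    calc P * X ^ (1 / 2 - κ) = P * X ^ (1 / 2 - κ) *
          (Real.exp (π * n * |s.im|) * Real.exp (-(π * n * |s.im|))) := by rw [hE, mul_one]
      _ = P * (Real.exp (-(π * n * |s.im|)) * (X ^ (1 / 2 - κ) / 2 / q)) *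
          (2 * q * Real.exp (π * n * |s.im|)) := by field_simp
      _ ≤ _ := h3
      _ = _ := by ring
  exact le_of_mul_le_mul_right h4 hXp

theorem pf_TMF (hTM : T_TM) (hRSX : T_RSX) (hPVF : T_PVF) (hINE : T_INE) (hTTO : T_TTO)
    (hHBD : T_HBD) (hGML : Pool.Agent.H61.FM.T_GML) : T_TMF := by
  classical
  intro k _ _ _
  obtain ⟨b0, hb0, hTMk⟩ := hTM k
  obtain ⟨b1, B, hb1, hB1, hRSk⟩ := hRSX k
  have hb : 0 < b0 * b1 := Nat.mul_pos hb0 hb1
  refine ⟨b0 * b1, hb, ?_⟩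
  set b : ℕ := b0 * b1 with hbd
  intro ε hε
  obtain ⟨κ0, hκ0, hκ8, δ, hδ, C0, k0, hC0, hTMε⟩ := hTMk b B hb (Dvd.intro _ rfl) hB1 ε hε
  obtain ⟨C1, hC1, h1⟩ := hHBD (2 * dg k) (ε / 4) (by positivity)
  obtain ⟨C2, k2, hC2, h2⟩ := hGML
  set κ : ℝ := min κ0 (ε / 4) with hκ
  have hκpos : 0 < κ := lt_min hκ0 (by positivity)
  have hκle8 : κ ≤ 1 / 8 := (min_le_left _ _).trans hκ8
  have hk0 : (1 : ℝ) ≤ (dk k : ℝ) := by
    have : 1 ≤ dk k := Nat.one_le_iff_ne_zero.mpr (Int.natAbs_ne_zero.mpr (discr_ne_zero k))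
    exact_mod_cast this
  have hn0 : 0 < dg k := Module.finrank_pos
  have hnR : (0 : ℝ) < dg k := by exact_mod_cast hn0
  refine ⟨κ, hκpos, hκle8, δ, hδ, (2 * C1 * (dk k : ℝ) ^ 2 * (C2 ^ 2) ^ dg k) * (2 * (C0 + 1)),
    2 * k2 * dg k + k0, by positivity, ?_⟩
  intro s X A α ι K _ _ _ _ _ S F hs hX hA hAX hα hFml
  have hX0 : 0 < X := by linarith
  set y : ℝ := X ^ (1 / (2 * dg k : ℝ)) with hy
  have hy1 : 1 ≤ y := Real.one_le_rpow hX (by positivity)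
  have hyr : ∀ r : ℝ, y ^ (dg k * r) = X ^ (r / 2) := by
    intro r
    rw [hy, ← Real.rpow_mul hX0.le]
    congr 1
    field_simp
  -- representatives
  have hfin : ∀ i, Module.finrank ℚ (K i) = 2 * dg k := by
    intro i
    have h3 := Module.finrank_mul_finrank ℚ k (K i)
    rw [Algebra.IsQuadraticExtension.finrank_eq_two k (K i)] at h3
    rw [← h3, mul_comm]; rfl
  have hRS : ∀ i : {i // i ∈ S}, Nonempty (RS k (K i.1) b B y) := by
    intro i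
    have hm := hFml.1 i.1 i.2
    have hdpos : (0 : ℝ) ≤ |(discr (K i.1) : ℝ)| := abs_nonneg _
    refine hRSk b hb (Dvd.intro_left _ rfl) (K i.1) y ?_ ?_
    · exact Real.rpow_le_rpow hdpos hm.2.1 (by positivity)
    · have h4 : X ≤ 4 * |(discr (K i.1) : ℝ)| := by linarith [hm.1]
      calc y ≤ (4 * |(discr (K i.1) : ℝ)|) ^ (1 / (2 * dg k : ℝ)) :=
            Real.rpow_le_rpow hX0.le h4 (by positivity)
        _ = 4 ^ (1 / (2 * dg k : ℝ)) * |(discr (K i.1) : ℝ)| ^ (1 / (2 * dg k : ℝ)) :=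
            Real.mul_rpow (by norm_num) hdpos
        _ ≤ 2 * |(discr (K i.1) : ℝ)| ^ (1 / (2 * dg k : ℝ)) := by
            apply mul_le_mul_of_nonneg_right _ (Real.rpow_nonneg hdpos _)
            have h5 : (1 : ℝ) ≤ dg k := by exact_mod_cast hn0
            calc (4 : ℝ) ^ (1 / (2 * dg k : ℝ)) ≤ 4 ^ (1 / 2 : ℝ) := by
                  apply Real.rpow_le_rpow_of_exponent_le (by norm_num)
                  apply one_div_le_one_div_of_le (by norm_num)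
                  linarith
              _ = 2 := by
                  rw [show (4 : ℝ) = 2 ^ (2 : ℝ) by norm_num, ← Real.rpow_mul (by norm_num)]
                  norm_num
  let R : ∀ i : {i // i ∈ S}, RS k (K i.1) b B y := fun i => Classical.choice (hRS i)
  let f : (Σ i : {i // i ∈ S}, ClassGroup (𝓞 (K i.1))) → La k × QF k :=
    fun x => ((R x.1).M x.2, (R x.1).Q x.2)
  have hI0 : ∀ (i : {i // i ∈ S}) (c : ClassGroup (𝓞 (K i.1))),
      ((R i).I c : Ideal (𝓞 (K i.1))) ≠ ⊥ := fun i c =>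
    nonZeroDivisors.ne_zero ((R i).I c).2
  have hfib : ∀ x₀ : (Σ i : {i // i ∈ S}, ClassGroup (𝓞 (K i.1))),
      (Finset.univ.filter (fun x => f x = f x₀)).card ≤ 2 := by
    rintro ⟨i, c⟩
    have h3 := hTTO k (K i.1) b B y (R i) c hb
    have h4 : (Finset.univ.filter (fun x => f x = f ⟨i, c⟩)) ⊆
        ((Set.toFinite {c' | (R i).M c' = (R i).M c ∧ (R i).Q c' = (R i).Q c}).toFinset).image
          (fun c' => (⟨i, c'⟩ : Σ i : {i // i ∈ S}, ClassGroup (𝓞 (K i.1)))) := by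
      rintro ⟨j, c'⟩ hx
      have hx' := (Finset.mem_filter.mp hx).2
      have e1 : (R j).M c' = (R i).M c := congrArg Prod.fst hx'
      have e2 : (R j).Q c' = (R i).Q c := congrArg Prod.snd hx'
      have o1 := (R j).ob c'
      have o2 := (R i).ob c
      rw [e1, e2] at o1
      obtain ⟨e, _⟩ := hINE k (K j.1) (K i.1) b b _ _ _ _ _ _ _ _ _ _ hb hb (hI0 j c') (hI0 i c) o1 o2
      have hij : j = i := Subtype.ext (hFml.2 j.1 j.2 i.1 i.2 ⟨e⟩)
      subst hij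
      rw [Finset.mem_image]
      exact ⟨c', by rw [Set.Finite.mem_toFinset]; exact ⟨e1, e2⟩, rfl⟩
    refine (Finset.card_le_card h4).trans (Finset.card_image_le.trans ?_)
    rw [← Set.ncard_eq_toFinset_card _ (Set.toFinite _)]
    exact h3
  set S' : Finset (La k × QF k) := Finset.univ.image f with hS'
  have hs0 : |s.re - 1 / 2| ≤ κ0 := hs.trans (min_le_left _ _)
  have hT := hTMε s y A α S' hs0 hy1 hA (by rw [hyr]; exact hAX) hα (by
    intro p hp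
    obtain ⟨x, -, rfl⟩ := Finset.mem_image.mp hp
    exact (R x.1).rd x.2)
  have hsum : ∑ i : {i // i ∈ S}, ∑ c : ClassGroup (𝓞 (K i.1)),
      ‖Bf s α b A ((R i).M c) ((R i).Q c)‖ ^ 2 ≤ 2 * ∑ p ∈ S', ‖Bf s α b A p.1 p.2‖ ^ 2 := by
    have e1 : ∑ i : {i // i ∈ S}, ∑ c : ClassGroup (𝓞 (K i.1)),
        ‖Bf s α b A ((R i).M c) ((R i).Q c)‖ ^ 2 =
        ∑ x : (Σ i : {i // i ∈ S}, ClassGroup (𝓞 (K i.1))), ‖Bf s α b A (f x).1 (f x).2‖ ^ 2 := by
      rw [Fintype.sum_sigma]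
    rw [e1, Finset.sum_comp (fun p : La k × QF k => ‖Bf s α b A p.1 p.2‖ ^ 2) f, Finset.mul_sum]
    apply Finset.sum_le_sum
    intro p hp
    obtain ⟨x₀, -, rfl⟩ := Finset.mem_image.mp hp
    rw [nsmul_eq_mul]
    apply mul_le_mul_of_nonneg_right _ (by positivity)
    exact_mod_cast hfib x₀
  set T : ℝ := 1 + |s.im| with hTd
  have hT1 : 1 ≤ T := by
    have := abs_nonneg s.im
    linarith
  rw [hyr] at hT
  have hcoe : ∑ i ∈ S, ∑ ψ : CC (K i), ‖∑ I ∈ Sq b A, α I * lm k ψ I‖ ^ 2 * ‖F i ψ s‖ ^ 2 =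
      ∑ i : {i // i ∈ S}, ∑ ψ : CC (K i.1), ‖∑ I ∈ Sq b A, α I * lm k ψ I‖ ^ 2 *
        ‖F i.1 ψ s‖ ^ 2 :=
    (Finset.sum_coe_sort S (fun i => ∑ ψ : CC (K i), ‖∑ I ∈ Sq b A, α I * lm k ψ I‖ ^ 2 *
      ‖F i ψ s‖ ^ 2)).symm
  rw [hcoe]
  have hEe : Real.exp (π * dg k * |s.im|) * Real.exp (-(π * dg k * |s.im|)) = 1 := by
    rw [← Real.exp_add, add_neg_cancel, Real.exp_zero]
  have hEp := Real.exp_pos (π * dg k * |s.im|)
  have hEm := Real.exp_pos (-(π * dg k * |s.im|))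
  set G : ℝ := (2 * C1 * (dk k : ℝ) ^ 2 * (C2 ^ 2) ^ dg k) with hG
  have hG0 : 0 ≤ G := by positivity
  have hA0 : 0 ≤ A := by linarith
  calc ∑ i : {i // i ∈ S}, ∑ ψ : CC (K i.1), ‖∑ I ∈ Sq b A, α I * lm k ψ I‖ ^ 2 *
        ‖F i.1 ψ s‖ ^ 2
      ≤ ∑ i : {i // i ∈ S}, G * (T ^ (2 * k2 * dg k) * Real.exp (π * dg k * |s.im|) *
          X ^ (κ + ε / 4)) * ∑ c : ClassGroup (𝓞 (K i.1)),
            ‖Bf s α b A ((R i).M c) ((R i).Q c)‖ ^ 2 := by
        apply Finset.sum_le_sum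
        intro i _
        have hm := hFml.1 i.1 i.2
        exact one_field hPVF (by positivity) hκpos hκle8 hC1 hC2 k h2 (K i.1)
          (h1 (K i.1) (hfin i.1)).1 b B y hb (R i)
          (F i.1) hm.2.2 s A α X hX hs hm.1 hm.2.1
    _ = G * (T ^ (2 * k2 * dg k) * Real.exp (π * dg k * |s.im|) * X ^ (κ + ε / 4)) *
          ∑ i : {i // i ∈ S}, ∑ c : ClassGroup (𝓞 (K i.1)),
            ‖Bf s α b A ((R i).M c) ((R i).Q c)‖ ^ 2 := by
        rw [Finset.mul_sum]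
    _ ≤ G * (T ^ (2 * k2 * dg k) * Real.exp (π * dg k * |s.im|) * X ^ (κ + ε / 4)) *
          (2 * ∑ p ∈ S', ‖Bf s α b A p.1 p.2‖ ^ 2) :=
        mul_le_mul_of_nonneg_left hsum (by positivity)
    _ ≤ G * (T ^ (2 * k2 * dg k) * Real.exp (π * dg k * |s.im|) * X ^ (κ + ε / 4)) *
          (2 * (C0 * T ^ k0 * Real.exp (-(π * dg k * |s.im|)) * X ^ ((3 + ε) / 2) * A)) := by
        apply mul_le_mul_of_nonneg_left _ (by positivity)
        apply mul_le_mul_of_nonneg_left hT (by norm_num)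
    _ ≤ G * (T ^ (2 * k2 * dg k) * Real.exp (π * dg k * |s.im|) * X ^ (κ + ε / 4)) *
          (2 * ((C0 + 1) * T ^ k0 * Real.exp (-(π * dg k * |s.im|)) * X ^ ((3 + ε) / 2) * A)) := by
        apply mul_le_mul_of_nonneg_left _ (by positivity)
        have : C0 ≤ C0 + 1 := by linarith
        gcongr
    _ = G * (2 * (C0 + 1)) * T ^ (2 * k2 * dg k + k0) *
          (X ^ (κ + ε / 4) * X ^ ((3 + ε) / 2)) * A *
          (Real.exp (π * dg k * |s.im|) * Real.exp (-(π * dg k * |s.im|))) := by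
        rw [pow_add]; ring
    _ = G * (2 * (C0 + 1)) * T ^ (2 * k2 * dg k + k0) *
          X ^ (κ + ε / 4 + (3 + ε) / 2) * A := by
        rw [hEe, mul_one, ← Real.rpow_add hX0]
    _ ≤ G * (2 * (C0 + 1)) * T ^ (2 * k2 * dg k + k0) * X ^ (3 / 2 + ε) * A := by
        have hκ4 : κ ≤ ε / 4 := min_le_right _ _
        have : X ^ (κ + ε / 4 + (3 + ε) / 2) ≤ X ^ (3 / 2 + ε) :=
          Real.rpow_le_rpow_of_exponent_le hX (by linarith)
        gcongr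

end Pool.Agent.H95.CM4
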