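import Pool.Agent.H95.CM4.CLSU

/-!
# Row C_VIG: the vectors of an ideal and the integral ideals of the inverse class
-/

set_option autoImplicit false
set_option linter.unusedSectionVars false
set_option linter.unusedVariables false

open MeasureTheory Set Filter NumberField
open scoped Real nonZeroDivisors

namespace Pool.Agent.H95.CM4

open Pool.Agent.H65.CM4
open Pool.Agent.H95.CM

section

variable {k K : Type} [Field k] [NumberField k] [IsTotallyReal k] [Field K] [NumberField K]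
  [IsTotallyComplex K] [Algebra k K] [Algebra.IsQuadraticExtension k K]

/-- the counting of the orbits -/
theorem orbit_count (α β : K) (I : Ideal (𝓞 K)) (M : La k)
    (hinj : ∀ u : V2 k, lin α β u = 0 → u = 0)
    (hMI : ∀ u : V2 k, u ∈ M ↔ ∃ x ∈ I, (x : K) = lin α β u)
    (hmem : ∀ x ∈ I, ∃ u : V2 k, lin α β u = (x : K))
    (u : V2 k) (hu : u ∈ M) (hu0 : u ≠ 0) (S : Set (V2 k))
    (hS : ∀ v : V2 k, v ∈ S ↔ v ∈ Fo k ∧ ∃ η : (𝓞 K)ˣ, lin α β v = ((η : 𝓞 K) : K) * lin α β u) :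
    S.ncard = un k K := by
  classical
  obtain ⟨x, hx, ex⟩ := (hMI u).mp hu
  have hx0 : lin α β u ≠ 0 := fun h => hu0 (hinj u h)
  -- multiplication by units
  have hg : ∀ η : (𝓞 K)ˣ, ∃ v ∈ M, lin α β v = ((η : 𝓞 K) : K) * lin α β u := by
    intro η
    have h1 : (η : 𝓞 K) * x ∈ I := I.mul_mem_left _ hx
    obtain ⟨v, hv⟩ := hmem _ h1
    refine ⟨v, (hMI v).mpr ⟨_, h1, hv.symm⟩, ?_⟩
    rw [hv, ← ex]; push_cast; rfl
  have hη : ∀ v : S, ∃ η : (𝓞 K)ˣ, lin α β (v : V2 k) = ((η : 𝓞 K) : K) * lin α β u :=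
    fun v => ((hS v.1).mp v.2).2
  choose e he using hη
  let H : Subgroup (𝓞 K)ˣ := (Units.map (algebraMap (𝓞 k) (𝓞 K)).toMonoidHom).range
  let Ψ : S → (𝓞 K)ˣ ⧸ H := fun v => (e v : (𝓞 K)ˣ ⧸ H)
  have hunit : ∀ a : (𝓞 k)ˣ, ((Units.map (algebraMap (𝓞 k) (𝓞 K)).toMonoidHom a : (𝓞 K)ˣ) : 𝓞 K) =
      algebraMap (𝓞 k) (𝓞 K) (a : 𝓞 k) := fun a => rfl
  have hc : ∀ (p : 𝓞 K) (a : 𝓞 k), ((p * algebraMap (𝓞 k) (𝓞 K) a : 𝓞 K) : K) =
      (p : K) * algebraMap k K (a : k) := fun p a => map_mul (algebraMap (𝓞 K) K) p _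
  have hc' : ∀ (p : 𝓞 K) (a : 𝓞 k), ((algebraMap (𝓞 k) (𝓞 K) a * p : 𝓞 K) : K) =
      algebraMap k K (a : k) * (p : K) := fun p a => map_mul (algebraMap (𝓞 K) K) _ p
  have hcancel : ∀ η η' : (𝓞 K)ˣ, ((η : 𝓞 K) : K) * lin α β u = ((η' : 𝓞 K) : K) * lin α β u →
      η = η' := by
    intro η η' h
    have h1 := mul_right_cancel₀ hx0 h
    exact Units.ext (RingOfIntegers.ext h1)
  have hbij : Function.Bijective Ψ := by
    constructor
    · intro v w h
      have h1 : (e v)⁻¹ * e w ∈ H := QuotientGroup.eq.mp h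
      obtain ⟨a, ha⟩ := h1
      have h2 : e w = e v * Units.map (algebraMap (𝓞 k) (𝓞 K)).toMonoidHom a := by
        rw [ha]; group
      have h3 : (w : V2 k) = (a : 𝓞 k) • (v : V2 k) := by
        apply lin_inj hinj
        rw [he w, lin_smul, he v, h2]
        rw [Units.val_mul, hunit, hc]
        ring
      have h4 : Quotient.mk (MulAction.orbitRel (𝓞 k)ˣ (V2 k)) (v : V2 k) =
          Quotient.mk (MulAction.orbitRel (𝓞 k)ˣ (V2 k)) (w : V2 k) := by
        apply Quotient.sound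
        change (v : V2 k) ∈ MulAction.orbit (𝓞 k)ˣ (w : V2 k)
        refine ⟨a⁻¹, ?_⟩
        change a⁻¹ • (w : V2 k) = v
        rw [h3]
        change a⁻¹ • (a • (v : V2 k)) = v
        rw [inv_smul_smul]
      have h5 := ((hS v.1).mp v.2).1.2
      have h6 := ((hS w.1).mp w.2).1.2
      apply Subtype.ext
      rw [h5, h6, h4]
    · intro c
      obtain ⟨η, rfl⟩ := QuotientGroup.mk_surjective c
      obtain ⟨v, hv, ev⟩ := hg η
      have hv0 : v ≠ 0 := by
        rintro rfl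
        rw [lin_zero] at ev
        rcases mul_eq_zero.mp ev.symm with h | h
        · have : (η : 𝓞 K) = 0 := RingOfIntegers.ext h
          exact η.ne_zero this
        · exact hx0 h
      set w : V2 k := Quotient.out (Quotient.mk (MulAction.orbitRel (𝓞 k)ˣ (V2 k)) v) with hw
      have hwv : Quotient.mk (MulAction.orbitRel (𝓞 k)ˣ (V2 k)) w =
          Quotient.mk (MulAction.orbitRel (𝓞 k)ˣ (V2 k)) v := Quotient.out_eq _
      have h1 : w ∈ MulAction.orbit (𝓞 k)ˣ v := Quotient.exact hwv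
      obtain ⟨a, ha⟩ := h1
      have ha' : w = (a : 𝓞 k) • v := ha.symm
      have hlw : lin α β w = (((Units.map (algebraMap (𝓞 k) (𝓞 K)).toMonoidHom a * η : (𝓞 K)ˣ) :
          𝓞 K) : K) * lin α β u := by
        rw [ha', lin_smul, ev, Units.val_mul, hunit, hc']
        ring
      have hw0 : w ≠ 0 := by
        intro h
        have h2 : v = a⁻¹ • w := by
          have h7 : a • v = w := ha
          rw [← h7, inv_smul_smul]
        rw [h, smul_zero] at h2
        exact hv0 h2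
      have hwF : w ∈ Fo k := ⟨hw0, by rw [hwv]⟩
      have hwS : w ∈ S := (hS w).mpr ⟨hwF, _, hlw⟩
      refine ⟨⟨w, hwS⟩, ?_⟩
      have h3 : e ⟨w, hwS⟩ = Units.map (algebraMap (𝓞 k) (𝓞 K)).toMonoidHom a * η := by
        apply hcancel
        rw [← he ⟨w, hwS⟩]
        exact hlw
      change ((e ⟨w, hwS⟩ : (𝓞 K)ˣ) : (𝓞 K)ˣ ⧸ H) = (η : (𝓞 K)ˣ ⧸ H)
      rw [h3, mul_comm]
      apply Eq.symm
      rw [QuotientGroup.eq]
      refine ⟨a, ?_⟩
      group
  have h1 := Nat.card_eq_of_bijective Ψ hbij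
  rw [← Nat.card_coe_set_eq, h1]
  rfl

end

theorem pf_VIG (hCVF : T_CVF) (hNTP : T_NTP) (hUNI : T_UNI) : T_VIG := by
  classical
  intro k K _ _ _ _ _ _ _ _ b I α β μ M Q hb hO
  have hI0 : (I : Ideal (𝓞 K)) ≠ ⊥ := nonZeroDivisors.ne_zero I.2
  have hinj := hO.inj
  have hMI : ∀ u : V2 k, u ∈ M ↔ ∃ x ∈ (I : Ideal (𝓞 K)), (x : K) = lin α β u := by
    intro u; rw [hO.lat]; exact Iff.rfl
  have hx0 : ∀ u : V2 k, u ≠ 0 → ∀ x : 𝓞 K, (x : K) = lin α β u → x ≠ 0 := by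
    rintro u hu x ex rfl
    exact hu (hinj u (by rw [← ex]; simp))
  have hexJ : ∀ u : V2 k, ∃ J : (Ideal (𝓞 K))⁰, u ∈ M → u ≠ 0 → ∀ x : 𝓞 K,
      (x : K) = lin α β u → Ideal.span {x} = (J : Ideal (𝓞 K)) * I := by
    intro u
    by_cases h : u ∈ M ∧ u ≠ 0
    · obtain ⟨x, hx, ex⟩ := (hMI u).mp h.1
      have h1 : Ideal.span {x} ≤ (I : Ideal (𝓞 K)) := by
        rw [Ideal.span_singleton_le_iff_mem]; exact hx
      obtain ⟨J, hJ⟩ := Ideal.dvd_iff_le.mpr h1
      have hJ0 : J ≠ ⊥ := by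
        rintro rfl
        have h2 : Ideal.span {x} = (⊥ : Ideal (𝓞 K)) := by rw [hJ]; simp
        exact hx0 u h.2 x ex (Ideal.span_singleton_eq_bot.mp h2)
      refine ⟨⟨J, mem_nonZeroDivisors_of_ne_zero hJ0⟩, fun _ _ y ey => ?_⟩
      have : y = x := RingOfIntegers.ext (by rw [ex, ey])
      rw [this, hJ, mul_comm]
    · exact ⟨1, fun h1 h2 => absurd ⟨h1, h2⟩ h⟩
  choose J hJ using hexJ
  have hcl : ∀ u ∈ M, u ≠ 0 → ClassGroup.mk0 (J u) = (ClassGroup.mk0 I)⁻¹ := by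
    intro u hu hu0
    obtain ⟨x, hx, ex⟩ := (hMI u).mp hu
    have h1 := hJ u hu hu0 x ex
    rw [eq_inv_iff_mul_eq_one, ← map_mul, ClassGroup.mk0_eq_one_iff]
    refine ⟨⟨x, ?_⟩⟩
    change ((J u * I : (Ideal (𝓞 K))⁰) : Ideal (𝓞 K)) = Submodule.span (𝓞 K) {x}
    rw [← Ideal.submodule_span_eq] at h1
    rw [h1]
    rfl
  refine ⟨J, fun u hu hu0 => hJ u hu hu0, fun u hu hu0 => ⟨hcl u hu hu0, ?_⟩, ?_, ?_⟩
  · -- the norm
    obtain ⟨x, hx, ex⟩ := (hMI u).mp hu
    obtain ⟨hpos, hcv⟩ := hCVF k K b I α β μ M Q hb hI0 hO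
    obtain ⟨_, _, h3⟩ := hNTP k K
    have h1 := hJ u hu hu0 x ex
    have h2 : nm (J u : Ideal (𝓞 K)) * nm (I : Ideal (𝓞 K)) =
        (∏ v : Pl k, rv v μ) * ∏ v : Pl k, rv v (val Q u : k) := by
      have e1 : nm (J u : Ideal (𝓞 K)) * nm (I : Ideal (𝓞 K)) =
          |((Algebra.norm ℚ (x : K) : ℚ) : ℝ)| := by
        unfold nm
        rw [← Nat.cast_mul, ← map_mul, ← h1, Ideal.absNorm_span_singleton, Nat.cast_natAbs,
          ← Algebra.coe_norm_int]
        simp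
      rw [e1, h3 (x : K), ex, hO.nrm, ← Finset.prod_mul_distrib]
      refine Finset.prod_congr rfl fun v _ => map_mul _ _ _
    have hI1 : 0 < nm (I : Ideal (𝓞 K)) := by
      unfold nm
      have : Ideal.absNorm (I : Ideal (𝓞 K)) ≠ 0 := by rwa [Ne, Ideal.absNorm_eq_zero_iff]
      exact_mod_cast Nat.pos_of_ne_zero this
    have hμ : 0 < ∏ v : Pl k, rv v μ := Finset.prod_pos fun v _ => hO.pos v
    have hds : 0 < ∏ v : Pl k, Real.sqrt (rv v (dsc Q : k)) :=
      Finset.prod_pos fun v _ => Real.sqrt_pos.mpr (hpos v).2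
    have hds2 : (∏ v : Pl k, Real.sqrt (rv v (dsc Q : k))) ^ 2 = ∏ v : Pl k, rv v (dsc Q : k) := by
      rw [← Finset.prod_pow]
      exact Finset.prod_congr rfl fun v _ => Real.sq_sqrt (hpos v).2.le
    have hd : 0 < |(discr K : ℝ)| := abs_pos.mpr (by exact_mod_cast discr_ne_zero K)
    have hk : 0 < (dk k : ℝ) := by
      have : dk k ≠ 0 := Int.natAbs_ne_zero.mpr (discr_ne_zero k)
      exact_mod_cast Nat.pos_of_ne_zero this
    set p : ℝ := ∏ v : Pl k, rv v μ with hp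
    set q : ℝ := ∏ v : Pl k, rv v (val Q u : k) with hq
    set d : ℝ := ∏ v : Pl k, Real.sqrt (rv v (dsc Q : k)) with hdd
    set D : ℝ := |(discr K : ℝ)| with hD
    rw [← hds2] at hcv
    have hm : (0 : ℝ) < ix M := by
      rcases Nat.eq_zero_or_pos (ix M) with h | h
      · rw [h] at hcv
        have : nm (I : Ideal (𝓞 K)) ^ 2 * D = 0 := by rw [hcv]; simp
        have h5 : 0 < nm (I : Ideal (𝓞 K)) ^ 2 * D := by positivity
        linarith
      · exact_mod_cast h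
    have hsq : nm (I : Ideal (𝓞 K)) * Real.sqrt D = ix M * dk k * p * d := by
      have e1 : (nm (I : Ideal (𝓞 K)) * Real.sqrt D) ^ 2 = (ix M * dk k * p * d) ^ 2 := by
        rw [mul_pow, Real.sq_sqrt hd.le, hcv]; ring
      exact (pow_left_inj₀ (by positivity) (by positivity) two_ne_zero).mp e1
    have hDr : Real.sqrt (Dr k K) = Real.sqrt D / dk k := by
      unfold Dr
      rw [Real.sqrt_div hd.le, Real.sqrt_sq hk.le]
    rw [Finset.prod_div_distrib, ← hdd, ← hq, hDr]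
    have h4 : nm (J u : Ideal (𝓞 K)) * (nm (I : Ideal (𝓞 K)) * Real.sqrt D) =
        p * q * Real.sqrt D := by rw [← mul_assoc, h2]
    rw [hsq] at h4
    field_simp
    have h5 : nm (J u : Ideal (𝓞 K)) * (ix M * dk k * d) * p = (Real.sqrt D * q) * p := by
      linear_combination h4
    have h6 := mul_right_cancel₀ hμ.ne' h5
    linear_combination h6
  · -- all ideals of the inverse class
    intro J' hJ'
    have h1 : ClassGroup.mk0 (J' * I) = 1 := by rw [map_mul, hJ', inv_mul_cancel]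
    rw [ClassGroup.mk0_eq_one_iff] at h1
    obtain ⟨x, hx⟩ := h1.principal
    have hx' : (J' : Ideal (𝓞 K)) * I = Ideal.span {x} := hx
    have hxI : x ∈ (I : Ideal (𝓞 K)) := by
      have : x ∈ (J' : Ideal (𝓞 K)) * I := by rw [hx']; exact Ideal.mem_span_singleton_self x
      exact Ideal.mul_le_right this
    obtain ⟨u, hu⟩ := hO.mem x hxI
    have huM : u ∈ M := (hMI u).mpr ⟨x, hxI, hu.symm⟩
    have hJ0 : (J' : Ideal (𝓞 K)) ≠ ⊥ := nonZeroDivisors.ne_zero J'.2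
    have hxne : x ≠ 0 := by
      rintro rfl
      rw [Ideal.span_singleton_eq_bot.mpr rfl] at hx'
      rcases Ideal.mul_eq_bot.mp hx' with h | h
      · exact hJ0 h
      · exact hI0 h
    have hu0 : u ≠ 0 := by
      rintro rfl
      rw [lin_zero] at hu
      exact hxne (RingOfIntegers.ext (by simpa using hu.symm))
    refine ⟨u, huM, hu0, ?_⟩
    have h2 := hJ u huM hu0 x hu.symm
    rw [← hx'] at h2
    exact Subtype.ext (mul_right_cancel₀ hI0 h2).symm
  · -- the fibres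
    intro u hu hu0
    obtain ⟨x, hx, ex⟩ := (hMI u).mp hu
    apply orbit_count α β I M hinj hMI hO.mem u hu hu0
    intro v
    have hgen : ∀ (v : V2 k) (η : (𝓞 K)ˣ), lin α β v = ((η : 𝓞 K) : K) * lin α β u →
        v ∈ M ∧ v ≠ 0 ∧ J v = J u := by
      intro v η hv
      have h1 : (η : 𝓞 K) * x ∈ (I : Ideal (𝓞 K)) := Ideal.mul_mem_left _ _ hx
      have h2 : (((η : 𝓞 K) * x : 𝓞 K) : K) = lin α β v := by
        rw [hv, ← ex]; exact map_mul (algebraMap (𝓞 K) K) _ _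
      have hvM : v ∈ M := (hMI v).mpr ⟨_, h1, h2⟩
      have hv0 : v ≠ 0 := by
        rintro rfl
        rw [lin_zero] at h2
        have h3 : (η : 𝓞 K) * x = 0 := RingOfIntegers.ext (by rw [h2]; simp)
        rcases mul_eq_zero.mp h3 with h4 | h4
        · exact η.ne_zero h4
        · exact hx0 u hu0 x ex h4
      refine ⟨hvM, hv0, ?_⟩
      have h5 := hJ v hvM hv0 _ h2
      have h6 := hJ u hu hu0 x ex
      have h7 : Ideal.span {(η : 𝓞 K) * x} = Ideal.span {x} := by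
        rw [Ideal.span_singleton_eq_span_singleton]
        exact associated_unit_mul_left x (η : 𝓞 K) η.isUnit
      rw [h7, h6] at h5
      exact Subtype.ext (mul_right_cancel₀ hI0 h5).symm
    constructor
    · rintro ⟨hvM, hvF, hJv⟩
      refine ⟨hvF, ?_⟩
      have hv0 : v ≠ 0 := hvF.1
      obtain ⟨x', hx', ex'⟩ := (hMI v).mp hvM
      have h1 := hJ v hvM hv0 x' ex'
      have h2 := hJ u hu hu0 x ex
      rw [hJv, ← h2, Ideal.span_singleton_eq_span_singleton] at h1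
      obtain ⟨η, hη⟩ := h1
      refine ⟨η⁻¹, ?_⟩
      rw [← ex', ← ex, ← hη]
      have h3 : ((η⁻¹ : (𝓞 K)ˣ) : 𝓞 K) * (x' * η) = x' := by
        rw [mul_comm x', ← mul_assoc, Units.inv_mul, one_mul]
      have h4 := congrArg (algebraMap (𝓞 K) K) h3
      rw [map_mul] at h4
      exact h4.symm
    · rintro ⟨hvF, η, hv⟩
      obtain ⟨h1, _, h3⟩ := hgen v η hv
      exact ⟨h1, hvF, h3⟩

end Pool.Agent.H95.CM4
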