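import Pool.Agent.H95.CM.Asm
import Pool.Agent.H95.CM.Bridge
import Pool.Agent.H95.CM.BridgeB
import Pool.Agent.H98.CM4.EMB
import Pool.Agent.H33.CM4.BAL
import Pool.Agent.H34.CM4.LOW
import Pool.Agent.H96.CM4.FLS
import Pool.Agent.H34.CM4.IDC
import Pool.Agent.H23.FM.PVL
import Pool.Agent.H42.FM.GML
import Pool.Agent.H13.CM4.CCVF
import Pool.Agent.H77.CM4.CCYC
import Pool.Agent.H14.CM4.CDTW
import Pool.Agent.H72.CM4.CHUR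
import Pool.Agent.H21.CM4.CINE
import Pool.Agent.H63.CM4.CINJ
import Pool.Agent.H14.CM4.CIXL
import Pool.Agent.H21.CM4.CLF1
import Pool.Agent.H21.CM4.CLF2
import Pool.Agent.H95.CM4.CLSU
import Pool.Agent.H72.CM4.CNF2
import Pool.Agent.H42.CM4.CNRI
import Pool.Agent.H77.CM4.CNTP
import Pool.Agent.H49.CM4.CPVF
import Pool.Agent.H63.CM4.CQFX
import Pool.Agent.H42.CM4.CQNV
import Pool.Agent.H72.CM4.CRDX
import Pool.Agent.H34.CM4.CRSX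
import Pool.Agent.H95.CM4.CTMF
import Pool.Agent.H14.CM4.CTPE
import Pool.Agent.H21.CM4.CTTO
import Pool.Agent.H42.CM4.CUNI
import Pool.Agent.H95.CM4.CVIG
import Pool.Agent.H14.CM4.CVWB
import Pool.Agent.H72.CM4.CVWI
import Pool.Agent.H65.CM4.MKI
import Pool.Agent.H77.CM4.CLIN
import Pool.Agent.H56.CM4.CTWS
import Pool.Agent.H58.CM4.CHBD
import Pool.Agent.H63.CM4.CEXL

/-!
# The fourth moment of the class group `L`-functions of the CM extensions: part C, closed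
-/

set_option autoImplicit false

open NumberField

namespace Pool.Agent.H95.CM

/-- part C with all rows -/
theorem all_C (hTM : Pool.Agent.H65.CM4.T_TM)
    (hEZA : Pool.Agent.H61.CM4.T_EZA) : Pool.Agent.H23.CM4.T_TMF ∧ T_EXL ∧ T_HBD ∧ T_NRI := by
  obtain ⟨h1, h2⟩ := part_C hTM (b_EZA hEZA)
    (b_BAL fun k _ _ _ => Pool.Agent.H33.CM4.pf_BAL k (Pool.Agent.H98.CM4.pf_EMB k))
    Pool.Agent.H72.CM4.pf_HUR
    (b_COV fun k _ _ _ => Pool.Agent.H34.CM4.pf_LOW k (Pool.Agent.H98.CM4.pf_EMB k))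
    (b_MKI fun k _ _ _ => Pool.Agent.H65.CM4.pf_MKI k (Pool.Agent.H98.CM4.pf_EMB k))
    (b_MEM (fun k _ _ _ => Pool.Agent.H96.CM4.pf_FLS k)
      (fun k _ _ _ => Pool.Agent.H34.CM4.pf_IDC k (Pool.Agent.H98.CM4.pf_EMB k)))
    Pool.Agent.H14.CM4.pf_TPE Pool.Agent.H14.CM4.pf_IXL Pool.Agent.H77.CM4.pf_NTP
    Pool.Agent.H72.CM4.pf_NF2 Pool.Agent.H72.CM4.pf_VWI Pool.Agent.H14.CM4.pf_VWB
    Pool.Agent.H63.CM4.pf_QFX Pool.Agent.H14.CM4.pf_DTW Pool.Agent.H13.CM4.pf_CVF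
    Pool.Agent.H72.CM4.pf_RDX Pool.Agent.H34.CM4.pf_RSX Pool.Agent.H42.CM4.pf_QNV
    Pool.Agent.H42.CM4.pf_UNI Pool.Agent.H63.CM4.pf_INJ Pool.Agent.H77.CM4.pf_CYC
    Pool.Agent.H77.CM4.pf_LIN Pool.Agent.H95.CM4.pf_LSU Pool.Agent.H95.CM4.pf_VIG
    Pool.Agent.H56.CM4.pf_TWS
    Pool.Agent.H21.CM4.pf_LF1 Pool.Agent.H21.CM4.pf_LF2 Pool.Agent.H49.CM4.pf_PVF
    Pool.Agent.H23.FM.pf_PVL Pool.Agent.H21.CM4.pf_INE Pool.Agent.H21.CM4.pf_TTO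
    Pool.Agent.H42.CM4.pf_NRI Pool.Agent.H58.CM4.pf_HBD Pool.Agent.H42.FM.pf_GML Pool.Agent.H95.CM4.pf_TMF
    Pool.Agent.H63.CM4.pf_EXL
  exact ⟨b_TMF h1, h2⟩

end Pool.Agent.H95.CM
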